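import Pool.Agent.Lib.helper3.AR2

namespace Pool.Agent.Results.MP_3ace2b_pr.Free

open MeasureTheory Pool.Agent.Lib.helper3.AR

theorem result (d : ℕ) (hd : 2 ≤ d) : letI : MeasurableSpace (FreeGroup (Fin d)) := ⊤
    ∃ μ : PMF (FreeGroup (Fin d)), (∀ g, μ g⁻¹ = μ g) ∧ Subgroup.closure μ.support = ⊤ ∧
      ∃ n : ℕ, 1 ≤ n ∧ ¬ ∀ᵐ z ∂(Measure.infinitePi fun _ : ℕ => μ.toMeasure),
        Subsemigroup.closure (Set.range fun k : ℕ => ((List.range (n + k)).map z).prod) = ⊤ := by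
  let : MeasurableSpace (FreeGroup (Fin d)) := ⊤
  let φ : FreeGroup (Fin d) →* A :=
    FreeGroup.lift fun j => if j.val = 0 then tt else if j.val = 1 then fn 1 else tg j
  have h : ∀ k, ∃ g, φ g = tg k := fun k => (Subgroup.closure_le φ.range).mpr (by
    rintro a (rfl | rfl)
    · exact ⟨.of ⟨0, by omega⟩, by simp [φ]⟩
    · exact ⟨.of ⟨1, by omega⟩, by simp [φ]⟩) (tg_mem k)
  choose l hl using h
  obtain ⟨μ, h1, h2, h3⟩ := notAR φ (fun k => if h : k < d then .of ⟨k, h⟩ else l k)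
    (fun k hk => by
      rw [dif_pos (by omega)]
      interval_cases k <;> simp [φ])
    (fun k hk => by
      split_ifs
      · simp [φ, show k ≠ 0 by omega, show k ≠ 1 by omega]
      · exact hl k)
    (by
      rw [eq_top_iff, ← FreeGroup.closure_range_of]
      refine Subgroup.closure_mono ?_
      rintro _ ⟨j, rfl⟩
      exact ⟨j, by simp⟩)
  exact ⟨μ, h1, h2, 1, le_rfl, h3⟩

end Pool.Agent.Results.MP_3ace2b_pr.Free
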